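import Mathlib

set_option autoImplicit false

namespace Pool.Agent.Work.Wilf

open Finset Classical

/-- a column `x` is white for the list `P` if the entries of `P` above `x` contain the pattern -/
def white (Occ : List ℕ → Prop) (P : List ℕ) (x : ℕ) : Prop :=
  Occ (P.filter (fun y => decide (x < y)))

/-- the key of a list: white entries are forgotten -/
noncomputable def key (Occ : List ℕ → Prop) : List ℕ → List (Option ℕ)
  | [] => []
  | c :: P => (if white Occ P c then none else some c) :: key Occ P

/-- the non-white entries recorded in a key -/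
def nw (K : List (Option ℕ)) : List ℕ := K.filterMap id

/-- monotone classes of lists -/
def Mono (Occ : List ℕ → Prop) : Prop := ∀ ⦃L L' : List ℕ⦄, L.Sublist L' → Occ L → Occ L'

variable {Occ : List ℕ → Prop}

lemma white_anti (h : Mono Occ) (P : List ℕ) {x x' : ℕ} (hx : x' ≤ x) (hw : white Occ P x) :
    white Occ P x' := by
  unfold white at *
  refine h ?_ hw
  apply List.monotone_filter_right
  intro a ha
  simp only [decide_eq_true_eq] at *
  omega

lemma white_sub (h : Mono Occ) {P P' : List ℕ} (hP : P.Sublist P') {x : ℕ} (hw : white Occ P x) :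
    white Occ P' x := h (hP.filter _) hw

lemma nw_key_white {c : ℕ} {P : List ℕ} (hc : white Occ P c) :
    nw (key Occ (c :: P)) = nw (key Occ P) := by
  rw [key, if_pos hc]; rfl

lemma nw_key_nonwhite {c : ℕ} {P : List ℕ} (hc : ¬ white Occ P c) :
    nw (key Occ (c :: P)) = c :: nw (key Occ P) := by
  rw [key, if_neg hc]; rfl

lemma nw_key_sublist (P : List ℕ) : (nw (key Occ P)).Sublist P := by
  induction P with
  | nil => simp [key, nw]
  | cons c P ih =>
    by_cases hc : white Occ P c
    · rw [nw_key_white hc]; exact ih.trans (List.sublist_cons_self c P)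
    · rw [nw_key_nonwhite hc]; exact ih.cons_cons c

lemma nonwhite_filter (h : Mono Occ) (P : List ℕ) (x : ℕ) (hx : ¬ white Occ P x) :
    P.filter (fun y => decide (x < y)) = (nw (key Occ P)).filter (fun y => decide (x < y)) := by
  induction P with
  | nil => simp [key, nw]
  | cons d P ih =>
    have hx' : ¬ white Occ P x := fun hw => hx (white_sub h (List.sublist_cons_self d P) hw)
    have ih' := ih hx'
    by_cases hd : white Occ P d
    · rw [nw_key_white hd]
      have hlt : ¬ x < d := fun hlt => hx' (white_anti h P hlt.le hd)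
      rw [List.filter_cons_of_neg (by simpa using hlt)]
      exact ih'
    · rw [nw_key_nonwhite hd, List.filter_cons, List.filter_cons, ih']

/-- whiteness only depends on the key -/
lemma white_key (h : Mono Occ) (P : List ℕ) (x : ℕ) :
    white Occ P x ↔ white Occ (nw (key Occ P)) x := by
  constructor
  · intro hw
    induction P generalizing x with
    | nil => simpa [key, nw] using hw
    | cons c P ih =>
      by_cases hc : white Occ P c
      · rw [nw_key_white hc]
        by_cases hxc : x < c
        · exact white_anti h _ hxc.le (ih c hc)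
        · have : white Occ P x := by
            unfold white at *
            rw [List.filter_cons_of_neg (by simpa using hxc)] at hw
            exact hw
          exact ih x this
      · rw [nw_key_nonwhite hc]
        by_cases hall : white Occ P x
        · exact white_sub h (List.sublist_cons_self c _) (ih x hall)
        · unfold white at hw ⊢
          rw [List.filter_cons, nonwhite_filter h P x hall] at hw
          rw [List.filter_cons]
          exact hw
  · intro hw
    exact white_sub h (nw_key_sublist P) hw

/-- a non-white column is used iff it is recorded as non-white -/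
lemma mem_nonwhite (h : Mono Occ) (P : List ℕ) (c : ℕ) (hc : ¬ white Occ P c) :
    c ∈ P ↔ c ∈ nw (key Occ P) := by
  induction P with
  | nil => simp [key, nw]
  | cons d P ih =>
    have hc' : ¬ white Occ P c := fun hw => hc (white_sub h (List.sublist_cons_self d P) hw)
    have ih' := ih hc'
    by_cases hd : white Occ P d
    · rw [nw_key_white hd, List.mem_cons, ih']
      have : c ≠ d := fun e => hc' (e ▸ hd)
      simp [this]
    · rw [nw_key_nonwhite hd, List.mem_cons, List.mem_cons, ih']

lemma key_length (P : List ℕ) : (key Occ P).length = P.length := by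
  induction P with
  | nil => simp [key]
  | cons c P ih => simp [key, ih]

/-- allowed new entries, side A -/
noncomputable def chA (Occ : List ℕ → Prop) (n k : ℕ) (P : List ℕ) : Finset ℕ :=
  (range n).filter (fun c => c ∉ P ∧ (white Occ P c →
    ((range n).filter (fun c' => c' < c ∧ c' ∉ P)).card < k))

/-- allowed new entries, side B -/
noncomputable def chB (Occ : List ℕ → Prop) (n k : ℕ) (P : List ℕ) : Finset ℕ :=
  (range n).filter (fun c => c ∉ P ∧ (white Occ P c →
    ((range n).filter (fun c' => c < c' ∧ c' ∉ P ∧ white Occ P c')).card < k))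

/-- lists built by successive allowed choices -/
noncomputable def SS (ch : List ℕ → Finset ℕ) : ℕ → Finset (List ℕ)
  | 0 => {[]}
  | m+1 => (SS ch m).biUnion (fun P => (ch P).image (fun c => c :: P))

lemma sum_SS (ch : List ℕ → Finset ℕ) (m : ℕ) (φ : List ℕ → ℕ) :
    ∑ L ∈ SS ch (m+1), φ L = ∑ P ∈ SS ch m, ∑ c ∈ ch P, φ (c :: P) := by
  rw [SS, sum_biUnion]
  · apply sum_congr rfl
    intro P _
    rw [sum_image]
    intro a _ b _ hab
    exact (List.cons.inj hab).1
  · intro P _ P' _ hPP'
    rw [Function.onFun, Finset.disjoint_left]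
    intro L hL hL'
    rw [mem_image] at hL hL'
    obtain ⟨a, _, rfl⟩ := hL
    obtain ⟨b, _, hb⟩ := hL'
    exact hPP' (List.cons.inj hb).2.symm

/-- basic properties of the built lists -/
lemma SS_basic (ch : List ℕ → Finset ℕ) (n : ℕ) (hch : ∀ P c, c ∈ ch P → c < n ∧ c ∉ P)
    (m : ℕ) (L : List ℕ) (hL : L ∈ SS ch m) : L.length = m ∧ L.Nodup ∧ ∀ x ∈ L, x < n := by
  induction m generalizing L with
  | zero =>
    rw [SS, mem_singleton] at hL
    subst hL; simp
  | succ m ih =>
    rw [SS, mem_biUnion] at hL
    obtain ⟨P, hP, hL⟩ := hL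
    rw [mem_image] at hL
    obtain ⟨c, hc, rfl⟩ := hL
    obtain ⟨h1, h2, h3⟩ := ih P hP
    obtain ⟨h4, h5⟩ := hch P c hc
    refine ⟨by simp [h1], List.nodup_cons.mpr ⟨h5, h2⟩, ?_⟩
    intro x hx
    rcases List.mem_cons.mp hx with rfl | hx
    · exact h4
    · exact h3 x hx

/-- the `k` smallest elements of a finite set -/
lemma card_low (W : Finset ℕ) (k : ℕ) :
    (W.filter (fun c => (W.filter (fun c' => c' < c)).card < k)).card = min k W.card := by
  induction W using Finset.induction_on_max with
  | empty => simp
  | insert a s hs ih =>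
    have ha : a ∉ s := fun h => lt_irrefl _ (hs a h)
    have e1 : ∀ c ∈ s, ((insert a s).filter (fun c' => c' < c)) = s.filter (fun c' => c' < c) := by
      intro c hc
      rw [filter_insert, if_neg (not_lt.mpr (hs c hc).le)]
    have e2 : ((insert a s).filter (fun c' => c' < a)) = s := by
      rw [filter_insert, if_neg (lt_irrefl _), filter_true_of_mem hs]
    rw [filter_insert, e2, card_insert_of_notMem ha]
    have e3 : s.filter (fun c => ((insert a s).filter (fun c' => c' < c)).card < k)
        = s.filter (fun c => (s.filter (fun c' => c' < c)).card < k) := by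
      apply filter_congr
      intro c hc
      rw [e1 c hc]
    rw [e3]
    split_ifs with hk
    · rw [card_insert_of_notMem (fun h => ha (mem_filter.mp h).1), ih]; omega
    · rw [ih]; omega

/-- the `k` largest elements of a finite set -/
lemma card_high (W : Finset ℕ) (k : ℕ) :
    (W.filter (fun c => (W.filter (fun c' => c < c')).card < k)).card = min k W.card := by
  induction W using Finset.induction_on_min with
  | empty => simp
  | insert a s hs ih =>
    have ha : a ∉ s := fun h => lt_irrefl _ (hs a h)
    have e1 : ∀ c ∈ s, ((insert a s).filter (fun c' => c < c')) = s.filter (fun c' => c < c') := by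
      intro c hc
      rw [filter_insert, if_neg (not_lt.mpr (hs c hc).le)]
    have e2 : ((insert a s).filter (fun c' => a < c')) = s := by
      rw [filter_insert, if_neg (lt_irrefl _), filter_true_of_mem hs]
    rw [filter_insert, e2, card_insert_of_notMem ha]
    have e3 : s.filter (fun c => ((insert a s).filter (fun c' => c < c')).card < k)
        = s.filter (fun c => (s.filter (fun c' => c < c')).card < k) := by
      apply filter_congr
      intro c hc
      rw [e1 c hc]
    rw [e3]
    split_ifs with hk
    · rw [card_insert_of_notMem (fun h => ha (mem_filter.mp h).1), ih]; omega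
    · rw [ih]; omega

/-- available non-white columns, in terms of the key -/
noncomputable def NWs (Occ : List ℕ → Prop) (n : ℕ) (K : List (Option ℕ)) : Finset ℕ :=
  (range n).filter (fun c => c ∉ nw K ∧ ¬ white Occ (nw K) c)

lemma NWs_eq (h : Mono Occ) (n : ℕ) (P : List ℕ) :
    NWs Occ n (key Occ P) = (range n).filter (fun c => c ∉ P ∧ ¬ white Occ P c) := by
  unfold NWs
  apply filter_congr
  intro c _
  rw [← white_key h]
  constructor
  · rintro ⟨h1, h2⟩
    exact ⟨fun hc => h1 ((mem_nonwhite h P c h2).mp hc), h2⟩
  · rintro ⟨h1, h2⟩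
    exact ⟨fun hc => h1 ((mem_nonwhite h P c h2).mpr hc), h2⟩

/-- number of available white columns, in terms of the key -/
lemma white_card (h : Mono Occ) (n : ℕ) (P : List ℕ) (hnd : P.Nodup) (hlt : ∀ x ∈ P, x < n) :
    ((range n).filter (fun c => c ∉ P ∧ white Occ P c)).card
      = n - (key Occ P).length - (NWs Occ n (key Occ P)).card := by
  have h1 : ((range n).filter (fun c => c ∉ P)).card = n - P.length := by
    have : (range n).filter (fun c => c ∉ P) = range n \ P.toFinset := by
      ext c; simp
    rw [this, card_sdiff_of_subset, card_range, List.toFinset_card_of_nodup hnd]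
    intro x hx
    exact mem_range.mpr (hlt x (List.mem_toFinset.mp hx))
  have h2 : ((range n).filter (fun c => c ∉ P)).card =
      ((range n).filter (fun c => c ∉ P ∧ white Occ P c)).card
        + ((range n).filter (fun c => c ∉ P ∧ ¬ white Occ P c)).card := by
    rw [← card_filter_add_card_filter_not (s := (range n).filter (fun c => c ∉ P)) (fun c => white Occ P c),
      filter_filter, filter_filter]
  rw [NWs_eq h, key_length]
  omega

/-- the step function -/
noncomputable def Psi (Occ : List ℕ → Prop) (n k : ℕ) (φ : List (Option ℕ) → ℕ)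
    (K : List (Option ℕ)) : ℕ :=
  ∑ c ∈ NWs Occ n K, φ (some c :: K)
    + min k (n - K.length - (NWs Occ n K).card) * φ (none :: K)

lemma stepA (h : Mono Occ) (n k : ℕ) (φ : List (Option ℕ) → ℕ) (P : List ℕ)
    (hnd : P.Nodup) (hlt : ∀ x ∈ P, x < n) :
    ∑ c ∈ chA Occ n k P, φ (key Occ (c :: P)) = Psi Occ n k φ (key Occ P) := by
  rw [← sum_filter_add_sum_filter_not (chA Occ n k P) (fun c => ¬ white Occ P c)]
  unfold Psi
  congr 1
  · have e : (chA Occ n k P).filter (fun c => ¬ white Occ P c) = NWs Occ n (key Occ P) := by
      rw [NWs_eq h]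
      unfold chA
      rw [filter_filter]
      apply filter_congr
      intro c _
      constructor
      · rintro ⟨⟨h1, _⟩, h2⟩; exact ⟨h1, h2⟩
      · rintro ⟨h1, h2⟩; exact ⟨⟨h1, fun hw => absurd hw h2⟩, h2⟩
    rw [e]
    apply sum_congr rfl
    intro c hc
    have hcw : ¬ white Occ P c := by
      rw [NWs_eq h] at hc
      exact (mem_filter.mp hc).2.2
    rw [key, if_neg hcw]
  · have e : (chA Occ n k P).filter (fun c => ¬ ¬ white Occ P c) =
        ((range n).filter (fun c => c ∉ P ∧ white Occ P c)).filter
          (fun c => (((range n).filter (fun c => c ∉ P ∧ white Occ P c)).filter (fun c' => c' < c)).card < k) := by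
      unfold chA
      rw [filter_filter, filter_filter]
      apply filter_congr
      intro c _
      have hE : white Occ P c → (range n).filter (fun c' => c' < c ∧ c' ∉ P)
          = ((range n).filter (fun c => c ∉ P ∧ white Occ P c)).filter (fun c' => c' < c) := by
        intro hw
        rw [filter_filter]
        apply filter_congr
        intro c' _
        constructor
        · rintro ⟨h1, h2⟩; exact ⟨⟨h2, white_anti h P h1.le hw⟩, h1⟩
        · rintro ⟨⟨h1, _⟩, h2⟩; exact ⟨h2, h1⟩
      constructor
      · rintro ⟨⟨h1, h2⟩, h3⟩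
        have hw := not_not.mp h3
        refine ⟨⟨h1, hw⟩, ?_⟩
        rw [← hE hw]; exact h2 hw
      · rintro ⟨⟨h1, hw⟩, h3⟩
        refine ⟨⟨h1, fun _ => ?_⟩, not_not.mpr hw⟩
        rw [hE hw]; exact h3
    have hs : ∑ c ∈ (chA Occ n k P).filter (fun c => ¬ ¬ white Occ P c), φ (key Occ (c :: P))
        = ∑ c ∈ (chA Occ n k P).filter (fun c => ¬ ¬ white Occ P c), φ (none :: key Occ P) := by
      apply sum_congr rfl
      intro c hc
      have hcw : white Occ P c := not_not.mp (mem_filter.mp hc).2
      rw [key, if_pos hcw]
    rw [hs, sum_const, smul_eq_mul, e, card_low, white_card h n P hnd hlt]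

lemma stepB (h : Mono Occ) (n k : ℕ) (φ : List (Option ℕ) → ℕ) (P : List ℕ)
    (hnd : P.Nodup) (hlt : ∀ x ∈ P, x < n) :
    ∑ c ∈ chB Occ n k P, φ (key Occ (c :: P)) = Psi Occ n k φ (key Occ P) := by
  rw [← sum_filter_add_sum_filter_not (chB Occ n k P) (fun c => ¬ white Occ P c)]
  unfold Psi
  congr 1
  · have e : (chB Occ n k P).filter (fun c => ¬ white Occ P c) = NWs Occ n (key Occ P) := by
      rw [NWs_eq h]
      unfold chB
      rw [filter_filter]
      apply filter_congr
      intro c _
      constructor
      · rintro ⟨⟨h1, _⟩, h2⟩; exact ⟨h1, h2⟩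
      · rintro ⟨h1, h2⟩; exact ⟨⟨h1, fun hw => absurd hw h2⟩, h2⟩
    rw [e]
    apply sum_congr rfl
    intro c hc
    have hcw : ¬ white Occ P c := by
      rw [NWs_eq h] at hc
      exact (mem_filter.mp hc).2.2
    rw [key, if_neg hcw]
  · have e : (chB Occ n k P).filter (fun c => ¬ ¬ white Occ P c) =
        ((range n).filter (fun c => c ∉ P ∧ white Occ P c)).filter
          (fun c => (((range n).filter (fun c => c ∉ P ∧ white Occ P c)).filter (fun c' => c < c')).card < k) := by
      unfold chB
      rw [filter_filter, filter_filter]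
      apply filter_congr
      intro c _
      have hE : (range n).filter (fun c' => c < c' ∧ c' ∉ P ∧ white Occ P c')
          = ((range n).filter (fun c => c ∉ P ∧ white Occ P c)).filter (fun c' => c < c') := by
        rw [filter_filter]
        apply filter_congr
        intro c' _
        constructor
        · rintro ⟨h1, h2⟩; exact ⟨h2, h1⟩
        · rintro ⟨h1, h2⟩; exact ⟨h2, h1⟩
      rw [hE]
      constructor
      · rintro ⟨⟨h1, h2⟩, h3⟩
        have hw := not_not.mp h3
        exact ⟨⟨h1, hw⟩, h2 hw⟩
      · rintro ⟨⟨h1, hw⟩, h3⟩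
        exact ⟨⟨h1, fun _ => h3⟩, not_not.mpr hw⟩
    have hs : ∑ c ∈ (chB Occ n k P).filter (fun c => ¬ ¬ white Occ P c), φ (key Occ (c :: P))
        = ∑ c ∈ (chB Occ n k P).filter (fun c => ¬ ¬ white Occ P c), φ (none :: key Occ P) := by
      apply sum_congr rfl
      intro c hc
      have hcw : white Occ P c := not_not.mp (mem_filter.mp hc).2
      rw [key, if_pos hcw]
    rw [hs, sum_const, smul_eq_mul, e, card_high, white_card h n P hnd hlt]

lemma chA_basic (n k : ℕ) (P : List ℕ) (c : ℕ) (hc : c ∈ chA Occ n k P) : c < n ∧ c ∉ P := by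
  unfold chA at hc
  rw [mem_filter] at hc
  exact ⟨mem_range.mp hc.1, hc.2.1⟩

lemma chB_basic (n k : ℕ) (P : List ℕ) (c : ℕ) (hc : c ∈ chB Occ n k P) : c < n ∧ c ∉ P := by
  unfold chB at hc
  rw [mem_filter] at hc
  exact ⟨mem_range.mp hc.1, hc.2.1⟩

theorem main_sum (h : Mono Occ) (n k m : ℕ) (φ : List (Option ℕ) → ℕ) :
    ∑ L ∈ SS (chA Occ n k) m, φ (key Occ L) = ∑ L ∈ SS (chB Occ n k) m, φ (key Occ L) := by
  induction m generalizing φ with
  | zero => rfl
  | succ m ih =>
    rw [sum_SS (chA Occ n k) m (fun L => φ (key Occ L)), sum_SS (chB Occ n k) m (fun L => φ (key Occ L))]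
    have e1 : ∑ P ∈ SS (chA Occ n k) m, ∑ c ∈ chA Occ n k P, φ (key Occ (c :: P))
        = ∑ P ∈ SS (chA Occ n k) m, Psi Occ n k φ (key Occ P) := by
      apply sum_congr rfl
      intro P hP
      obtain ⟨_, h2, h3⟩ := SS_basic _ n (chA_basic n k) m P hP
      exact stepA h n k φ P h2 h3
    have e2 : ∑ P ∈ SS (chB Occ n k) m, ∑ c ∈ chB Occ n k P, φ (key Occ (c :: P))
        = ∑ P ∈ SS (chB Occ n k) m, Psi Occ n k φ (key Occ P) := by
      apply sum_congr rfl
      intro P hP
      obtain ⟨_, h2, h3⟩ := SS_basic _ n (chB_basic n k) m P hP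
      exact stepB h n k φ P h2 h3
    rw [e1, e2]
    exact ih (Psi Occ n k φ)

theorem main_card (h : Mono Occ) (n k m : ℕ) :
    (SS (chA Occ n k) m).card = (SS (chB Occ n k) m).card := by
  have := main_sum h n k m (fun _ => 1)
  simpa using this

end Pool.Agent.Work.Wilf
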