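import Mathlib
import Pool.Agent.Work.MP_b2be16_co.Count

set_option autoImplicit false

namespace Pool.Agent.Work.Wilf

open Finset Classical

variable {Occ : List ℕ → Prop}

lemma mem_SS (ch : List ℕ → Finset ℕ) (m : ℕ) (L : List ℕ) :
    L ∈ SS ch m ↔ L.length = m ∧ ∀ Q c P, L = Q ++ c :: P → c ∈ ch P := by
  induction m generalizing L with
  | zero =>
    rw [SS, mem_singleton]
    constructor
    · rintro rfl
      refine ⟨rfl, ?_⟩
      intro Q c P h
      simp at h
    · rintro ⟨h, _⟩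
      exact List.length_eq_zero_iff.mp h
  | succ m ih =>
    rw [SS, mem_biUnion]
    constructor
    · rintro ⟨P, hP, hL⟩
      rw [mem_image] at hL
      obtain ⟨c, hc, rfl⟩ := hL
      obtain ⟨h1, h2⟩ := (ih P).mp hP
      refine ⟨by simp [h1], ?_⟩
      intro Q d R hQ
      cases Q with
      | nil =>
        simp only [List.nil_append, List.cons.injEq] at hQ
        obtain ⟨rfl, rfl⟩ := hQ
        exact hc
      | cons q Q =>
        simp only [List.cons_append, List.cons.injEq] at hQ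
        exact h2 Q d R hQ.2
    · rintro ⟨h1, h2⟩
      cases L with
      | nil => simp at h1
      | cons c P =>
        refine ⟨P, ?_, ?_⟩
        · rw [ih P]
          refine ⟨by simpa using h1, ?_⟩
          intro Q d R hQ
          exact h2 (c :: Q) d R (by rw [hQ]; rfl)
        · rw [mem_image]
          exact ⟨c, h2 [] c P rfl, rfl⟩

/-- full lists: permutations of `0..n-1` -/
def Full (n : ℕ) (L : List ℕ) : Prop := L.length = n ∧ L.Nodup ∧ ∀ x ∈ L, x < n

lemma full_mem {n : ℕ} {L : List ℕ} (h : Full n L) (x : ℕ) : x ∈ L ↔ x < n := by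
  constructor
  · exact h.2.2 x
  · intro hx
    have h1 : L.toFinset = range n := by
      apply eq_of_subset_of_card_le
      · intro y hy
        exact mem_range.mpr (h.2.2 y (List.mem_toFinset.mp hy))
      · rw [card_range, List.toFinset_card_of_nodup h.2.1, h.1]
    have : x ∈ L.toFinset := by rw [h1]; exact mem_range.mpr hx
    exact List.mem_toFinset.mp this

def AvA (Occ : List ℕ → Prop) (k : ℕ) (L : List ℕ) : Prop :=
  ∀ Q c P, L = Q ++ c :: P → white Occ P c → (Q.filter (fun y => decide (y < c))).length < k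

def AvB (Occ : List ℕ → Prop) (k : ℕ) (L : List ℕ) : Prop :=
  ∀ Q c P, L = Q ++ c :: P → white Occ P c →
    (Q.filter (fun y => decide (c < y ∧ white Occ P y))).length < k

lemma before_card {n : ℕ} {Q P : List ℕ} {c : ℕ} (h : Full n (Q ++ c :: P)) (p : ℕ → Prop)
    [DecidablePred p] [DecidablePred (fun x => p x ∧ x ∉ P)] (hp : ¬ p c) :
    ((range n).filter (fun x => p x ∧ x ∉ P)).card = (Q.filter (fun y => decide (p y))).length := by
  have hnd := h.2.1
  have hndQ : Q.Nodup := (List.nodup_append.mp hnd).1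
  have : (range n).filter (fun x => p x ∧ x ∉ P) = (Q.filter (fun y => decide (p y))).toFinset := by
    ext x
    rw [mem_filter, List.mem_toFinset, List.mem_filter, mem_range, decide_eq_true_eq,
      ← full_mem h x, List.mem_append, List.mem_cons]
    constructor
    · rintro ⟨h1, h2, h3⟩
      refine ⟨?_, h2⟩
      rcases h1 with h1 | rfl | h1
      · exact h1
      · exact absurd h2 hp
      · exact absurd h1 h3
    · rintro ⟨h1, h2⟩
      refine ⟨Or.inl h1, h2, ?_⟩
      intro hxP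
      have hdis := (List.nodup_append.mp hnd).2.2
      exact hdis x h1 x (List.mem_cons_of_mem _ hxP) rfl
  rw [this, List.toFinset_card_of_nodup (hndQ.filter _)]

lemma SSA_full (n k : ℕ) (L : List ℕ) :
    L ∈ SS (chA Occ n k) n ↔ Full n L ∧ AvA Occ k L := by
  constructor
  · intro hL
    have hF : Full n L := SS_basic _ n (chA_basic n k) n L hL
    refine ⟨hF, ?_⟩
    intro Q c P hQ hw
    have h1 := ((mem_SS _ n L).mp hL).2 Q c P hQ
    unfold chA at h1
    rw [mem_filter] at h1
    have h2 := h1.2.2 hw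
    rw [before_card (hQ ▸ hF) (fun x => x < c) (lt_irrefl c)] at h2
    exact h2
  · rintro ⟨hF, hA⟩
    rw [mem_SS]
    refine ⟨hF.1, ?_⟩
    intro Q c P hQ
    unfold chA
    rw [mem_filter, mem_range]
    have hF' : Full n (Q ++ c :: P) := hQ ▸ hF
    refine ⟨hF.2.2 c (by rw [hQ]; simp), ?_, ?_⟩
    · have := (List.nodup_append.mp hF'.2.1).2.1
      exact (List.nodup_cons.mp this).1
    · intro hw
      rw [before_card hF' (fun x => x < c) (lt_irrefl c)]
      exact hA Q c P hQ hw

lemma SSB_full (n k : ℕ) (L : List ℕ) :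
    L ∈ SS (chB Occ n k) n ↔ Full n L ∧ AvB Occ k L := by
  have hE : ∀ (P : List ℕ) (c : ℕ), (range n).filter (fun c' => c < c' ∧ c' ∉ P ∧ white Occ P c')
      = (range n).filter (fun x => (c < x ∧ white Occ P x) ∧ x ∉ P) := by
    intro P c
    apply filter_congr
    intro x _
    tauto
  constructor
  · intro hL
    have hF : Full n L := SS_basic _ n (chB_basic n k) n L hL
    refine ⟨hF, ?_⟩
    intro Q c P hQ hw
    have h1 := ((mem_SS _ n L).mp hL).2 Q c P hQ
    unfold chB at h1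
    rw [mem_filter] at h1
    have h2 := h1.2.2 hw
    rw [hE, before_card (hQ ▸ hF) (fun x => c < x ∧ white Occ P x) (fun h => lt_irrefl c h.1)] at h2
    exact h2
  · rintro ⟨hF, hA⟩
    rw [mem_SS]
    refine ⟨hF.1, ?_⟩
    intro Q c P hQ
    unfold chB
    rw [mem_filter, mem_range]
    have hF' : Full n (Q ++ c :: P) := hQ ▸ hF
    refine ⟨hF.2.2 c (by rw [hQ]; simp), ?_, ?_⟩
    · have := (List.nodup_append.mp hF'.2.1).2.1
      exact (List.nodup_cons.mp this).1
    · intro hw
      rw [hE, before_card hF' (fun x => c < x ∧ white Occ P x) (fun h => lt_irrefl c h.1)]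
      exact hA Q c P hQ hw

/-! ### list pattern lemmas -/

lemma split_sublist (l1 l2 L : List ℕ) (c : ℕ) :
    (l1 ++ c :: l2).Sublist L ↔ ∃ Q P, L = Q ++ c :: P ∧ l1.Sublist Q ∧ l2.Sublist P := by
  constructor
  · intro h
    obtain ⟨r1, r2, rfl, h1, h2⟩ := List.append_sublist_iff.mp h
    obtain ⟨s1, s2, rfl, h3, h4⟩ := List.cons_sublist_iff.mp h2
    obtain ⟨t1, t2, rfl⟩ := List.append_of_mem h3
    refine ⟨r1 ++ t1, t2 ++ s2, by simp, ?_, ?_⟩
    · exact h1.trans (List.sublist_append_left _ _)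
    · exact h4.trans (List.sublist_append_right _ _)
  · rintro ⟨Q, P, rfl, h1, h2⟩
    exact h1.append (h2.cons_cons c)

lemma sublist_filter (l P : List ℕ) (p : ℕ → Prop) [DecidablePred p] :
    l.Sublist (P.filter (fun y => decide (p y))) ↔ l.Sublist P ∧ ∀ x ∈ l, p x := by
  constructor
  · intro h
    refine ⟨h.trans List.filter_sublist, ?_⟩
    intro x hx
    have := h.subset hx
    rw [List.mem_filter, decide_eq_true_eq] at this
    exact this.2
  · rintro ⟨h1, h2⟩
    have e : l = l.filter (fun y => decide (p y)) := by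
      symm
      rw [List.filter_eq_self]
      intro x hx
      simpa using h2 x hx
    rw [e]
    exact h1.filter _

lemma two_le_length (Q : List ℕ) (p : ℕ → Prop) [DecidablePred p] :
    2 ≤ (Q.filter (fun y => decide (p y))).length ↔ ∃ a b, [a, b].Sublist Q ∧ p a ∧ p b := by
  constructor
  · intro h
    match hE : Q.filter (fun y => decide (p y)), h with
    | a :: b :: R, _ =>
      have hs : [a, b].Sublist (Q.filter (fun y => decide (p y))) := by
        rw [hE]
        exact ((List.nil_sublist R).cons_cons b).cons_cons a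
      rw [sublist_filter] at hs
      exact ⟨a, b, hs.1, hs.2 a (by simp), hs.2 b (by simp)⟩
  · rintro ⟨a, b, h1, h2, h3⟩
    have hs : [a, b].Sublist (Q.filter (fun y => decide (p y))) := by
      rw [sublist_filter]
      refine ⟨h1, ?_⟩
      intro x hx
      rcases List.mem_cons.mp hx with rfl | hx
      · exact h2
      · rw [List.mem_singleton] at hx; exact hx ▸ h3
    simpa using hs.length_le

lemma one_le_length (Q : List ℕ) (p : ℕ → Prop) [DecidablePred p] :
    1 ≤ (Q.filter (fun y => decide (p y))).length ↔ ∃ a, [a].Sublist Q ∧ p a := by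
  constructor
  · intro h
    match hE : Q.filter (fun y => decide (p y)), h with
    | a :: R, _ =>
      have hs : [a].Sublist (Q.filter (fun y => decide (p y))) := by
        rw [hE]
        exact (List.nil_sublist R).cons_cons a
      rw [sublist_filter] at hs
      exact ⟨a, hs.1, hs.2 a (by simp)⟩
  · rintro ⟨a, h1, h2⟩
    have hs : [a].Sublist (Q.filter (fun y => decide (p y))) := by
      rw [sublist_filter]
      refine ⟨h1, ?_⟩
      intro x hx
      rw [List.mem_singleton] at hx; exact hx ▸ h2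
    simpa using hs.length_le

/-- an ascent pair -/
def Occ12 (L : List ℕ) : Prop := ∃ d e, [d, e].Sublist L ∧ d < e

/-- a top element followed by two smaller ones -/
def Occ3 (L : List ℕ) : Prop := ∃ p q r, [p, q, r].Sublist L ∧ q < p ∧ r < p

lemma mono12 : Mono Occ12 := by
  rintro L L' h ⟨d, e, h1, h2⟩
  exact ⟨d, e, h1.trans h, h2⟩

lemma mono3 : Mono Occ3 := by
  rintro L L' h ⟨p, q, r, h1, h2⟩
  exact ⟨p, q, r, h1.trans h, h2⟩

lemma white12 (P : List ℕ) (c : ℕ) :
    white Occ12 P c ↔ ∃ d e, [d, e].Sublist P ∧ c < d ∧ d < e := by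
  unfold white Occ12
  constructor
  · rintro ⟨d, e, h1, h2⟩
    rw [sublist_filter] at h1
    exact ⟨d, e, h1.1, h1.2 d (by simp), h2⟩
  · rintro ⟨d, e, h1, h2, h3⟩
    refine ⟨d, e, ?_, h3⟩
    rw [sublist_filter]
    refine ⟨h1, ?_⟩
    intro x hx
    rcases List.mem_cons.mp hx with rfl | hx
    · exact h2
    · rw [List.mem_singleton] at hx; subst hx; omega

lemma white3 (P : List ℕ) (c : ℕ) :
    white Occ3 P c ↔ ∃ p q r, [p, q, r].Sublist P ∧ c < q ∧ c < r ∧ q < p ∧ r < p := by
  unfold white Occ3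
  constructor
  · rintro ⟨p, q, r, h1, h2, h3⟩
    rw [sublist_filter] at h1
    exact ⟨p, q, r, h1.1, h1.2 q (by simp), h1.2 r (by simp), h2, h3⟩
  · rintro ⟨p, q, r, h1, h2, h3, h4, h5⟩
    refine ⟨p, q, r, ?_, h4, h5⟩
    rw [sublist_filter]
    refine ⟨h1, ?_⟩
    intro x hx
    rcases List.mem_cons.mp hx with rfl | hx
    · omega
    · rcases List.mem_cons.mp hx with rfl | hx
      · exact h2
      · rw [List.mem_singleton] at hx; subst hx; exact h3

lemma AvA2_iff (L : List ℕ) : AvA Occ12 2 L ↔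
    ¬ ∃ a b c d e, [a, b, c, d, e].Sublist L ∧ a < c ∧ b < c ∧ c < d ∧ d < e := by
  constructor
  · rintro h ⟨a, b, c, d, e, hs, h1, h2, h3, h4⟩
    obtain ⟨Q, P, hL, hQ, hP⟩ := (split_sublist [a, b] [d, e] L c).mp hs
    have hw : white Occ12 P c := (white12 P c).mpr ⟨d, e, hP, h3, h4⟩
    have := h Q c P hL hw
    have h2 := (two_le_length Q (fun y => y < c)).mpr ⟨a, b, hQ, h1, h2⟩
    omega
  · intro h Q c P hL hw
    by_contra hcon
    push Not at hcon
    obtain ⟨a, b, hQ, h1, h2⟩ := (two_le_length Q (fun y => y < c)).mp hcon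
    obtain ⟨d, e, hP, h3, h4⟩ := (white12 P c).mp hw
    exact h ⟨a, b, c, d, e, (split_sublist [a, b] [d, e] L c).mpr ⟨Q, P, hL, hQ, hP⟩, h1, h2, h3, h4⟩

lemma AvB2_iff (L : List ℕ) : AvB Occ12 2 L ↔
    ¬ ∃ a b c d e, [a, b, c, d, e].Sublist L ∧ c < a ∧ c < b ∧ a < d ∧ b < d ∧ d < e := by
  constructor
  · rintro h ⟨a, b, c, d, e, hs, h1, h2, h3, h4, h5⟩
    obtain ⟨Q, P, hL, hQ, hP⟩ := (split_sublist [a, b] [d, e] L c).mp hs
    have hw : white Occ12 P c := (white12 P c).mpr ⟨d, e, hP, by omega, h5⟩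
    have := h Q c P hL hw
    have h2 := (two_le_length Q (fun y => c < y ∧ white Occ12 P y)).mpr
      ⟨a, b, hQ, ⟨h1, (white12 P a).mpr ⟨d, e, hP, h3, h5⟩⟩, ⟨h2, (white12 P b).mpr ⟨d, e, hP, h4, h5⟩⟩⟩
    omega
  · intro h Q c P hL hw
    by_contra hcon
    push Not at hcon
    obtain ⟨a, b, hQ, ⟨h1, hwa⟩, ⟨h2, hwb⟩⟩ := (two_le_length Q (fun y => c < y ∧ white Occ12 P y)).mp hcon
    have hwm : white Occ12 P (max a b) := by
      rcases le_total a b with hab | hab
      · rwa [max_eq_right hab]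
      · rwa [max_eq_left hab]
    obtain ⟨d, e, hP, h3, h4⟩ := (white12 P _).mp hwm
    exact h ⟨a, b, c, d, e, (split_sublist [a, b] [d, e] L c).mpr ⟨Q, P, hL, hQ, hP⟩, h1, h2,
      lt_of_le_of_lt (le_max_left a b) h3, lt_of_le_of_lt (le_max_right a b) h3, h4⟩

lemma AvA1_iff (L : List ℕ) : AvA Occ3 1 L ↔
    ¬ ∃ a c p q r, [a, c, p, q, r].Sublist L ∧ a < c ∧ c < q ∧ c < r ∧ q < p ∧ r < p := by
  constructor
  · rintro h ⟨a, c, p, q, r, hs, h1, h2, h3, h4, h5⟩
    obtain ⟨Q, P, hL, hQ, hP⟩ := (split_sublist [a] [p, q, r] L c).mp hs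
    have hw : white Occ3 P c := (white3 P c).mpr ⟨p, q, r, hP, h2, h3, h4, h5⟩
    have := h Q c P hL hw
    have h2 := (one_le_length Q (fun y => y < c)).mpr ⟨a, hQ, h1⟩
    omega
  · intro h Q c P hL hw
    by_contra hcon
    push Not at hcon
    obtain ⟨a, hQ, h1⟩ := (one_le_length Q (fun y => y < c)).mp hcon
    obtain ⟨p, q, r, hP, h2, h3, h4, h5⟩ := (white3 P c).mp hw
    exact h ⟨a, c, p, q, r, (split_sublist [a] [p, q, r] L c).mpr ⟨Q, P, hL, hQ, hP⟩, h1, h2, h3, h4, h5⟩

lemma AvB1_iff (L : List ℕ) : AvB Occ3 1 L ↔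
    ¬ ∃ a c p q r, [a, c, p, q, r].Sublist L ∧ c < a ∧ a < q ∧ a < r ∧ q < p ∧ r < p := by
  constructor
  · rintro h ⟨a, c, p, q, r, hs, h1, h2, h3, h4, h5⟩
    obtain ⟨Q, P, hL, hQ, hP⟩ := (split_sublist [a] [p, q, r] L c).mp hs
    have hw : white Occ3 P c := (white3 P c).mpr ⟨p, q, r, hP, by omega, by omega, h4, h5⟩
    have := h Q c P hL hw
    have h2 := (one_le_length Q (fun y => c < y ∧ white Occ3 P y)).mpr
      ⟨a, hQ, h1, (white3 P a).mpr ⟨p, q, r, hP, h2, h3, h4, h5⟩⟩
    omega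
  · intro h Q c P hL hw
    by_contra hcon
    push Not at hcon
    obtain ⟨a, hQ, h1, hwa⟩ := (one_le_length Q (fun y => c < y ∧ white Occ3 P y)).mp hcon
    obtain ⟨p, q, r, hP, h2, h3, h4, h5⟩ := (white3 P a).mp hwa
    exact h ⟨a, c, p, q, r, (split_sublist [a] [p, q, r] L c).mpr ⟨Q, P, hL, hQ, hP⟩, h1, h2, h3, h4, h5⟩

end Pool.Agent.Work.Wilf
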