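import Mathlib
import Pool.Agent.Work.MP_b2be16_co.Lists

set_option autoImplicit false

namespace Pool.Agent.Work.Wilf

def lst {n : ℕ} (π : Equiv.Perm (Fin n)) : List ℕ := List.ofFn (fun i => (π i : ℕ))

lemma lst_full {n : ℕ} (π : Equiv.Perm (Fin n)) : Full n (lst π) := by
  refine ⟨by simp [lst], ?_, ?_⟩
  · rw [lst, List.nodup_ofFn]
    intro i j h
    exact π.injective (Fin.ext h)
  · intro x hx
    rw [lst, List.mem_ofFn] at hx
    obtain ⟨i, rfl⟩ := hx
    exact (π i).isLt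

lemma lst_inj {n : ℕ} : Function.Injective (lst (n := n)) := by
  intro π ρ h
  have := List.ofFn_injective h
  ext i
  exact congrFun this i

lemma lst_surj {n : ℕ} (L : List ℕ) (h : Full n L) : ∃ π : Equiv.Perm (Fin n), lst π = L := by
  obtain ⟨h1, h2, h3⟩ := h
  subst h1
  let f : Fin L.length → Fin L.length := fun i => ⟨L.get i, h3 _ (List.get_mem _ _)⟩
  have hf : Function.Injective f := by
    intro i j hij
    have : L.get i = L.get j := congrArg Fin.val hij
    exact (List.nodup_iff_injective_get.mp h2) this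
  refine ⟨Equiv.ofBijective f (Finite.injective_iff_bijective.mp hf), ?_⟩
  unfold lst
  simp [f]

lemma card_eq {n : ℕ} (Q : List ℕ → Prop) (S : Finset (List ℕ))
    (hS : ∀ L, L ∈ S ↔ Full n L ∧ Q L) :
    Nat.card {π : Equiv.Perm (Fin n) // Q (lst π)} = S.card := by
  have e : {π : Equiv.Perm (Fin n) // Q (lst π)} ≃ S := by
    refine Equiv.ofBijective (fun π => ⟨lst π.1, (hS _).mpr ⟨lst_full _, π.2⟩⟩) ⟨?_, ?_⟩
    · intro π ρ h
      have h' : lst π.1 = lst ρ.1 := congrArg Subtype.val h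
      exact Subtype.ext (lst_inj h')
    · rintro ⟨L, hL⟩
      obtain ⟨hF, hQ⟩ := (hS L).mp hL
      obtain ⟨π, rfl⟩ := lst_surj L hF
      exact ⟨⟨π, hQ⟩, rfl⟩
  rw [Nat.card_congr e, Nat.card_eq_fintype_card, Fintype.card_coe]

lemma sub_lst {n k : ℕ} (l : List ℕ) (hl : l.length = k) (π : Equiv.Perm (Fin n)) :
    l.Sublist (lst π) ↔ ∃ f : Fin k → Fin n, StrictMono f ∧
      ∀ t : Fin k, (π (f t) : ℕ) = l.get (Fin.cast hl.symm t) := by
  subst hl
  have hlen : (lst π).length = n := by simp [lst]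
  rw [List.sublist_iff_exists_fin_orderEmbedding_get_eq]
  constructor
  · rintro ⟨f, hf⟩
    refine ⟨fun t => Fin.cast hlen (f t), ?_, ?_⟩
    · intro a b hab
      have := f.strictMono hab
      exact this
    · intro t
      have h1 := hf t
      have h2 : (lst π).get (f t) = (π (Fin.cast hlen (f t)) : ℕ) := by
        simp only [lst, List.get_ofFn]
      rw [h2] at h1
      exact h1.symm
  · rintro ⟨f, hf, h⟩
    refine ⟨OrderEmbedding.ofStrictMono (fun t => Fin.cast hlen.symm (f t)) ?_, ?_⟩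
    · intro a b hab
      exact hf hab
    · intro t
      have h2 : (lst π).get (Fin.cast hlen.symm (f t)) = (π (f t) : ℕ) := by
        simp only [lst, List.get_ofFn]
        rfl
      exact (h t).symm.trans h2.symm

lemma sub5 {n : ℕ} (a b c d e : ℕ) (π : Equiv.Perm (Fin n)) :
    [a, b, c, d, e].Sublist (lst π) ↔ ∃ f : Fin 5 → Fin n, StrictMono f ∧
      (π (f 0) : ℕ) = a ∧ (π (f 1) : ℕ) = b ∧ (π (f 2) : ℕ) = c ∧ (π (f 3) : ℕ) = d ∧
      (π (f 4) : ℕ) = e := by
  rw [sub_lst [a, b, c, d, e] (rfl : [a, b, c, d, e].length = 5)]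
  apply exists_congr
  intro f
  apply and_congr Iff.rfl
  constructor
  · intro h
    exact ⟨h 0, h 1, h 2, h 3, h 4⟩
  · rintro ⟨h0, h1, h2, h3, h4⟩ t
    fin_cases t
    · exact h0
    · exact h1
    · exact h2
    · exact h3
    · exact h4

lemma ex5 {n : ℕ} (R : ℕ → ℕ → ℕ → ℕ → ℕ → Prop) (π : Equiv.Perm (Fin n)) :
    (∃ a b c d e, [a, b, c, d, e].Sublist (lst π) ∧ R a b c d e) ↔
    ∃ f : Fin 5 → Fin n, StrictMono f ∧
      R (π (f 0)) (π (f 1)) (π (f 2)) (π (f 3)) (π (f 4)) := by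
  constructor
  · rintro ⟨a, b, c, d, e, hs, hR⟩
    obtain ⟨f, hf, rfl, rfl, rfl, rfl, rfl⟩ := (sub5 a b c d e π).mp hs
    exact ⟨f, hf, hR⟩
  · rintro ⟨f, hf, hR⟩
    exact ⟨_, _, _, _, _, (sub5 _ _ _ _ _ π).mpr ⟨f, hf, rfl, rfl, rfl, rfl, rfl⟩, hR⟩

end Pool.Agent.Work.Wilf
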